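import Pool.Agent.H64.Bohr.Concrete

/-!
Bohr sets in sums of endomorphic images of a set of positive upper Banach density:
a full affirmative answer, with uniform rank and radius, for any number `d ≥ 3` of
(not necessarily commuting) endomorphisms of an arbitrary abelian group.
-/

namespace Pool.Agent.Results.MP_0fda35_co.BohrInSumset

universe u

variable {G : Type u}

/-- `f` is an element of `ℓ^∞(G)`: a bounded real function on `G`. -/
def IsBounded (f : G → ℝ) : Prop := ∃ C : ℝ, ∀ x, |f x| ≤ C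

/-- `m` is a translation-invariant mean on `ℓ^∞(G)`: on bounded functions it is linear,
nonnegative, normalised and translation-invariant (values of `m` at unbounded functions
play no role). -/
structure IsInvariantMean [AddCommGroup G] (m : (G → ℝ) → ℝ) : Prop where
  map_add : ∀ f g : G → ℝ, IsBounded f → IsBounded g → m (fun x => f x + g x) = m f + m g
  map_smul : ∀ (c : ℝ) (f : G → ℝ), IsBounded f → m (fun x => c * f x) = c * m f
  nonneg : ∀ f : G → ℝ, IsBounded f → (∀ x, 0 ≤ f x) → 0 ≤ m f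
  map_one : m (fun _ => 1) = 1
  invariant : ∀ (f : G → ℝ) (g : G), IsBounded f → m (fun x => f (x + g)) = m f

/-- The upper Banach density `d^*(A)`: the supremum of `m(1_A)` over all translation-invariant
means `m` on `ℓ^∞(G)`. -/
noncomputable def upperBanachDensity [AddCommGroup G] (A : Set G) : ℝ :=
  sSup {r : ℝ | ∃ m : (G → ℝ) → ℝ, IsInvariantMean m ∧ m (A.indicator (fun _ => 1)) = r}

/-- The Bohr set `B(χ_1, ..., χ_k; η)`, of rank `k` and radius `η`. -/
def bohrSet [AddCommGroup G] {k : ℕ} (χ : Fin k → AddChar G Circle) (η : ℝ) : Set G :=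
  {g | ∀ j, ‖(χ j g : ℂ) - 1‖ < η}

/-- The set `φ_1(A) + ... + φ_d(A)`. -/
def sumImages [AddCommGroup G] {d : ℕ} (φ : Fin d → (G →+ G)) (A : Set G) : Set G :=
  {g | ∃ a : Fin d → G, (∀ j, a j ∈ A) ∧ ∑ j, φ j (a j) = g}

/-- For all `d ≥ 3`, `δ > 0` and index bounds `N_1, ..., N_d` there are a rank `k` and a radius
`η > 0` such that for every abelian group `G`, all endomorphisms `φ_1, ..., φ_d` of `G`
(commuting or not) with `φ_1 + ... + φ_d = 0` and `[G : φ_j(G)] ≤ N_j` finite, and every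
`A ⊆ G` with `d^*(A) ≥ δ`, the set `φ_1(A) + ... + φ_d(A)` contains a Bohr set of rank `k`
and radius `η`. -/
theorem result (d : ℕ) (hd : 3 ≤ d) (δ : ℝ) (hδ : 0 < δ) (N : Fin d → ℕ) :
    ∃ (k : ℕ) (η : ℝ), 0 < η ∧
      ∀ (G : Type u) [AddCommGroup G] (φ : Fin d → (G →+ G)),
        (∀ j, (φ j).range.index ≠ 0 ∧ (φ j).range.index ≤ N j) →
        ∑ j, φ j = 0 →
        ∀ A : Set G, δ ≤ upperBanachDensity A →
          ∃ χ : Fin k → AddChar G Circle, bohrSet χ η ⊆ sumImages φ A := by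
  obtain ⟨k, η, hη, h⟩ := Pool.Agent.H64.Bohr.main_mean.{u} d hd (∑ j, N j + 1) (Nat.succ_pos _)
    (δ / 2) (half_pos hδ)
  refine ⟨k, η, hη, ?_⟩
  intro G _ φ hidx hsum A hA
  have hne : {r : ℝ | ∃ m : (G → ℝ) → ℝ, IsInvariantMean m ∧
      m (A.indicator (fun _ => 1)) = r}.Nonempty := by
    by_contra hcon
    rw [Set.not_nonempty_iff_eq_empty] at hcon
    rw [upperBanachDensity, hcon, Real.sSup_empty] at hA
    linarith
  obtain ⟨r, ⟨μ, hμ, rfl⟩, hr⟩ := exists_lt_of_lt_csSup hne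
    (lt_of_lt_of_le (half_lt_self hδ) hA)
  obtain ⟨m, hm, hmμ⟩ := Pool.Agent.H64.Bohr.mean_of_real μ hμ.map_add hμ.map_smul hμ.nonneg
    hμ.map_one hμ.invariant
  have hind : (fun x => (Pool.Agent.H64.Bohr.ind A x).re) = A.indicator (fun _ => (1:ℝ)) := by
    classical
    funext x
    rw [Pool.Agent.H64.Bohr.ind_apply, Set.indicator_apply]
    split_ifs <;> simp
  obtain ⟨χ, hχ⟩ := h G φ (fun j => ⟨(hidx j).1, (hidx j).2.trans
    ((Finset.single_le_sum (f := N) (fun _ _ => Nat.zero_le _) (Finset.mem_univ j)).trans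
      (Nat.le_succ _))⟩) hsum m hm A (by rw [hmμ, hind]; exact hr)
  exact ⟨χ, fun g hg => hχ g hg⟩

end Pool.Agent.Results.MP_0fda35_co.BohrInSumset
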